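import Pool.Agent.LKU.Stmts
import Pool.Agent.Helper79_LKT.FIN

/-!
# Squad LKU, row FNB: the final theorem from the rows
-/

set_option autoImplicit false

open Topology

namespace Pool.Agent.LKU.H79

open Pool.Agent.LCK Pool.Agent.LKT Pool.Agent.LKU Pool.Agent.LKT.H79

lemma X2_eq : X2 = {x : Fin 8 → E3 | ∀ i : Fin 53, 0 < (fun (m : Fin 53) (y : Fin 8 → E3) => F2 m y) i x} := by
  ext x
  constructor
  · intro h i
    exact h i i.2
  · intro h i hi
    exact h ⟨i, hi⟩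

lemma loc2 (hAFB : AfbStmt) (hWNB : WnbStmt) (hWLI : WliStmt) (hWLO : WloStmt) (hWLZ : WlzStmt)
    (hOPB : OpbStmt) (hABS : AbsStmt) (hGEB : GebStmt) :
    ∀ c ∈ Om2, c ∈ closure X2 → closure X2 ∈ 𝓝 c := by
  intro c hc hcX
  have hwall : ∀ x ∈ Om2, ∀ j : Fin 53,
      (∀ i : Fin 53, i ≠ j → 0 < (fun (m : Fin 53) (y : Fin 8 → E3) => F2 m y) i x) →
      (fun (m : Fin 53) (y : Fin 8 → E3) => F2 m y) j x ≠ 0 := by
    intro x hx j hj
    have hj' : ∀ i < 53, i ≠ (j : ℕ) → 0 < F2 i x := by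
      intro i hi hne
      exact hj ⟨i, hi⟩ (fun h => hne (by rw [← h]))
    show F2 (j : ℕ) x ≠ 0
    by_cases hl : (j : ℕ) ∈ lk2
    · have hcases : (j : ℕ) = 2 ∨ (j : ℕ) = 6 ∨ (j : ℕ) = 11 ∨ (j : ℕ) = 22 ∨ (j : ℕ) = 25 ∨
          (j : ℕ) = 28 ∨ (j : ℕ) = 30 ∨ (j : ℕ) = 43 ∨ (j : ℕ) = 48 ∨ (j : ℕ) = 50 := by
        simpa [lk2] using hl
      rcases hcases with h | h | h | h | h | h | h | h | h | h
      · exact hWLO x hx _ (Or.inl h) hj'
      · exact hWLO x hx _ (Or.inr (Or.inl h)) hj'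
      · rw [h] at hj' ⊢
        exact hWLZ x hx hj'
      · exact hWLI x hx _ (Or.inl h) hj'
      · exact hWLI x hx _ (Or.inr (Or.inl h)) hj'
      · exact hWLI x hx _ (Or.inr (Or.inr (Or.inl h))) hj'
      · exact hWLO x hx _ (Or.inr (Or.inr (Or.inl h))) hj'
      · exact hWLI x hx _ (Or.inr (Or.inr (Or.inr (Or.inl h)))) hj'
      · exact hWLI x hx _ (Or.inr (Or.inr (Or.inr (Or.inr h)))) hj'
      · exact hWLO x hx _ (Or.inr (Or.inr (Or.inr h))) hj'
    · exact hWNB x j j.2 hl hj'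
  rw [X2_eq] at hcX ⊢
  exact hABS 53 (fun (m : Fin 53) (y : Fin 8 → E3) => F2 m y) Om2
    (fun i x k => hAFB.2 i i.2 x k) (fun i => hAFB.1 i) hOPB hGEB hwall c hc hcX

/-- the piercings on the closure of X2 -/
lemma meets (hRDX : RdxStmt) (hMCL : MclStmt) (x : Fin 8 → E3) (hx : x ∈ closure X2) :
    Meet (x 1) (x 2) (x 3) (x 4) (x 5) ∧ Meet (x 1) (x 2) (x 4) (x 5) (x 6) ∧
    Meet (x 5) (x 6) (x 1) (x 2) (x 3) ∧ Meet (x 5) (x 6) (x 2) (x 3) (x 4) :=
  ⟨closure_minimal (fun y hy => (hRDX y hy).1) (hMCL 1 2 3 4 5) hx,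
    closure_minimal (fun y hy => (hRDX y hy).2.1) (hMCL 1 2 4 5 6) hx,
    closure_minimal (fun y hy => (hRDX y hy).2.2.1) (hMCL 5 6 1 2 3) hx,
    closure_minimal (fun y hy => (hRDX y hy).2.2.2) (hMCL 5 6 2 3 4) hx⟩

lemma conf_Om2 (hRDX : RdxStmt) (hMCL : MclStmt) (hRC4 : Rc4Stmt) (G G' : ℝ) (hG : 2 < G)
    (hG' : Real.sqrt 5 < G') (v : Fin 8 → E3)
    (hv : v ∈ Conf (n := 7) ![G, 1, 1, 1, 1, 1, G']) (hX : xx v ∈ closure X2) : xx v ∈ Om2 := by
  obtain ⟨hlen, hsim⟩ := hv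
  have l0 : dist (v 0) (v 1) = G := hlen 0
  have l1 : dist (v 1) (v 2) = 1 := hlen 1
  have l2 : dist (v 2) (v 3) = 1 := hlen 2
  have l3 : dist (v 3) (v 4) = 1 := hlen 3
  have l4 : dist (v 4) (v 5) = 1 := hlen 4
  have l5 : dist (v 5) (v 6) = 1 := hlen 5
  have l6 : dist (v 6) (v 7) = G' := hlen 6
  have x0 : xx v 0 = v 0 - v 1 := rfl
  have x1 : xx v 1 = v 1 := rfl
  have x2 : xx v 2 = v 2 := rfl
  have x3 : xx v 3 = v 3 := rfl
  have x4 : xx v 4 = v 4 := rfl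
  have x5 : xx v 5 = v 5 := rfl
  have x6 : xx v 6 = v 6 := rfl
  have x7 : xx v 7 = v 7 - v 6 := rfl
  have n0 : ‖xx v 0‖ = G := by rw [x0, ← dist_eq_norm]; exact l0
  have n7 : ‖xx v 7‖ = G' := by rw [x7, ← dist_eq_norm, dist_comm]; exact l6
  have m1 : ‖v 2 - v 1‖ = 1 := by rw [← dist_eq_norm, dist_comm]; exact l1
  have m2 : ‖v 3 - v 2‖ = 1 := by rw [← dist_eq_norm, dist_comm]; exact l2
  have m3 : ‖v 4 - v 3‖ = 1 := by rw [← dist_eq_norm, dist_comm]; exact l3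
  have m4 : ‖v 5 - v 4‖ = 1 := by rw [← dist_eq_norm, dist_comm]; exact l4
  have m5 : ‖v 6 - v 5‖ = 1 := by rw [← dist_eq_norm, dist_comm]; exact l5
  obtain ⟨M1, M2, M3, M4⟩ := meets hRDX hMCL _ hX
  have d24 : v 2 ≠ v 4 := by
    have h := hsim 1 3 (by decide)
    rw [if_neg (by decide)] at h
    have e1 : v 2 ∈ segment ℝ (v (1 : Fin 7).castSucc) (v (1 : Fin 7).succ) := right_mem_segment ℝ _ _
    have e2 : v 4 ∈ segment ℝ (v (3 : Fin 7).castSucc) (v (3 : Fin 7).succ) := right_mem_segment ℝ _ _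
    intro hh
    have : v 2 ∈ (∅ : Set E3) := by
      rw [← h]
      exact ⟨e1, by rw [hh]; exact e2⟩
    exact this
  have d35 : v 3 ≠ v 5 := by
    have h := hsim 2 4 (by decide)
    rw [if_neg (by decide)] at h
    have e1 : v 3 ∈ segment ℝ (v (2 : Fin 7).castSucc) (v (2 : Fin 7).succ) := right_mem_segment ℝ _ _
    have e2 : v 5 ∈ segment ℝ (v (4 : Fin 7).castSucc) (v (4 : Fin 7).succ) := right_mem_segment ℝ _ _
    intro hh
    have : v 3 ∈ (∅ : Set E3) := by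
      rw [← h]
      exact ⟨e1, by rw [hh]; exact e2⟩
    exact this
  obtain ⟨r41, r51, r62, r63, r61⟩ := hRC4 (xx v) m1 m2 m3 m4 m5 d24 d35 M1 M2 M3 M4
  rw [x4, x1] at r41
  rw [x5, x1] at r51
  rw [x6, x2] at r62
  rw [x6, x3] at r63
  rw [x6, x1] at r61
  have hs : (2 : ℝ) ≤ Real.sqrt 5 := by
    rw [show (2 : ℝ) = Real.sqrt 4 by
      rw [show (4 : ℝ) = 2 ^ 2 by norm_num, Real.sqrt_sq (by norm_num)]]
    exact Real.sqrt_le_sqrt (by norm_num)
  have t12 : ‖v 3 - v 1‖ ≤ 2 := by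
    have : v 3 - v 1 = (v 3 - v 2) + (v 2 - v 1) := by abel
    rw [this]
    exact (norm_add_le _ _).trans (by rw [m2, m1]; norm_num)
  have s4 : ‖v 4 - v 6‖ ≤ 2 := by
    have : v 4 - v 6 = -(v 6 - v 5) + -(v 5 - v 4) := by abel
    rw [this]
    exact (norm_add_le _ _).trans (by rw [norm_neg, norm_neg, m5, m4]; norm_num)
  have s1 : ‖v 1 - v 6‖ ≤ Real.sqrt 5 := by rw [norm_sub_rev]; exact r61
  have s2 : ‖v 2 - v 6‖ ≤ 2 := by rw [norm_sub_rev]; exact r62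
  have s3 : ‖v 3 - v 6‖ ≤ 2 := by rw [norm_sub_rev]; exact r63
  have s5 : ‖v 5 - v 6‖ = 1 := by rw [norm_sub_rev]; exact m5
  refine ⟨?_, ?_, ?_⟩
  · intro i j hij
    rw [vv_xx]
    have hlt : i < j := by
      rw [Fin.lt_def]; omega
    have h := hsim i j hlt
    rw [if_neg (by omega)] at h
    exact Set.disjoint_iff_inter_eq_empty.2 h
  · intro j h2 h6
    rw [n0, x1]
    have : j = 2 ∨ j = 3 ∨ j = 4 ∨ j = 5 := by
      revert h2 h6; revert j; decide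
    rcases this with rfl | rfl | rfl | rfl
    · rw [x2, m1]; linarith
    · rw [x3]; linarith
    · rw [x4]; linarith
    · rw [x5]; linarith
  · intro j h1 h5
    rw [n7, x6]
    have : j = 1 ∨ j = 2 ∨ j = 3 ∨ j = 4 ∨ j = 5 := by
      revert h1 h5; revert j; decide
    rcases this with rfl | rfl | rfl | rfl | rfl
    · rw [x1]; linarith
    · rw [x2]; linarith
    · rw [x3]; linarith
    · rw [x4]; linarith
    · rw [x5, s5]; linarith

/-- membership in the configuration space -/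
lemma mem_conf2 (hSMP : SmpStmt) (G G' : ℝ) (x : Fin 8 → E3)
    (hD : ∀ i < 53, F2 i x ≠ 0) (hD0 : D x 0 1 2 3 ≠ 0)
    (h0 : ‖x 0‖ = G) (h7 : ‖x 7‖ = G') (m1 : ‖x 2 - x 1‖ = 1) (m2 : ‖x 3 - x 2‖ = 1)
    (m3 : ‖x 4 - x 3‖ = 1) (m4 : ‖x 5 - x 4‖ = 1) (m5 : ‖x 6 - x 5‖ = 1) :
    vv x ∈ Conf (n := 7) ![G, 1, 1, 1, 1, 1, G'] := by
  constructor
  · intro k
    fin_cases k
    · show dist (x 1 + x 0) (x 1) = G
      rw [dist_eq_norm, add_sub_cancel_left]; exact h0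
    · show dist (x 1) (x 2) = 1
      rw [dist_comm, dist_eq_norm]; exact m1
    · show dist (x 2) (x 3) = 1
      rw [dist_comm, dist_eq_norm]; exact m2
    · show dist (x 3) (x 4) = 1
      rw [dist_comm, dist_eq_norm]; exact m3
    · show dist (x 4) (x 5) = 1
      rw [dist_comm, dist_eq_norm]; exact m4
    · show dist (x 5) (x 6) = 1
      rw [dist_comm, dist_eq_norm]; exact m5
    · show dist (x 6) (x 6 + x 7) = G'
      rw [dist_comm, dist_eq_norm, add_sub_cancel_left]; exact h7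
  · have k5 : D x 0 1 3 4 ≠ 0 := fun h => hD 2 (by norm_num) (by
      show (((-1 : ℤ) : ℝ)) * D x 0 1 3 4 = 0
      rw [h, mul_zero])
    have k9 : D x 0 1 4 5 ≠ 0 := fun h => hD 6 (by norm_num) (by
      show (((-1 : ℤ) : ℝ)) * D x 0 1 4 5 = 0
      rw [h, mul_zero])
    have k12 : D x 0 1 5 6 ≠ 0 := fun h => hD 9 (by norm_num) (by
      show (((-1 : ℤ) : ℝ)) * D x 0 1 5 6 = 0
      rw [h, mul_zero])
    have k14 : D x 0 1 6 7 ≠ 0 := fun h => hD 11 (by norm_num) (by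
      show (((1 : ℤ) : ℝ)) * D x 0 1 6 7 = 0
      rw [h, mul_zero])
    have k30 : D x 1 2 3 4 ≠ 0 := fun h => hD 22 (by norm_num) (by
      show (((1 : ℤ) : ℝ)) * D x 1 2 3 4 = 0
      rw [h, mul_zero])
    have k34 : D x 1 2 4 5 ≠ 0 := fun h => hD 25 (by norm_num) (by
      show (((1 : ℤ) : ℝ)) * D x 1 2 4 5 = 0
      rw [h, mul_zero])
    have k35 : D x 1 2 5 6 ≠ 0 := fun h => hD 28 (by norm_num) (by
      show (((1 : ℤ) : ℝ)) * D x 1 2 5 6 = 0
      rw [h, mul_zero])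
    have k37 : D x 1 2 6 7 ≠ 0 := fun h => hD 30 (by norm_num) (by
      show (((1 : ℤ) : ℝ)) * D x 1 2 6 7 = 0
      rw [h, mul_zero])
    have k44 : D x 2 3 4 5 ≠ 0 := fun h => hD 40 (by norm_num) (by
      show (((-1 : ℤ) : ℝ)) * D x 2 3 4 5 = 0
      rw [h, mul_zero])
    have k47 : D x 2 3 5 6 ≠ 0 := fun h => hD 43 (by norm_num) (by
      show (((1 : ℤ) : ℝ)) * D x 2 3 5 6 = 0
      rw [h, mul_zero])
    have k49 : D x 2 3 6 7 ≠ 0 := fun h => hD 44 (by norm_num) (by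
      show (((-1 : ℤ) : ℝ)) * D x 2 3 6 7 = 0
      rw [h, mul_zero])
    have k54 : D x 3 4 5 6 ≠ 0 := fun h => hD 48 (by norm_num) (by
      show (((1 : ℤ) : ℝ)) * D x 3 4 5 6 = 0
      rw [h, mul_zero])
    have k56 : D x 3 4 6 7 ≠ 0 := fun h => hD 50 (by norm_num) (by
      show (((1 : ℤ) : ℝ)) * D x 3 4 6 7 = 0
      rw [h, mul_zero])
    have k58 : D x 4 5 6 7 ≠ 0 := fun h => hD 52 (by norm_num) (by
      show (((-1 : ℤ) : ℝ)) * D x 4 5 6 7 = 0
      rw [h, mul_zero])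
    refine hSMP x ?_ ?_
    · rintro ⟨a, ha⟩ ⟨b, hb⟩ ⟨c, hc⟩ ⟨d, hd⟩ hab hcd hbc
      replace hab : b = a + 1 := hab
      replace hcd : d = c + 1 := hcd
      replace hbc : b < c := hbc
      subst hab hcd
      have ha4 : a ≤ 4 := by omega
      have hc6 : c ≤ 6 := by omega
      interval_cases a <;> interval_cases c
      · exact hD0
      · exact k5
      · exact k9
      · exact k12
      · exact k14
      · exact k30
      · exact k34
      · exact k35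
      · exact k37
      · exact k44
      · exact k47
      · exact k49
      · exact k54
      · exact k56
      · exact k58
    · rintro ⟨a, ha⟩ ⟨b, hb⟩ ⟨c, hc⟩ ⟨d, hd⟩ hab hbc hcd
      replace hab : b = a + 1 := hab
      replace hbc : c = b + 1 := hbc
      replace hcd : d = c + 1 := hcd
      subst hab hbc hcd
      have ha5 : a = 0 ∨ a = 1 ∨ a = 2 ∨ a = 3 ∨ a = 4 := by omega
      rcases ha5 with rfl | rfl | rfl | rfl | rfl
      · exact hD0
      · exact k30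
      · exact k44
      · exact k54
      · exact k58

lemma open_X2 (hAFB : AfbStmt) : IsOpen X2 := by
  have : X2 = ⋂ i : Fin 53, {x : Fin 8 → E3 | 0 < F2 i x} := by
    ext y
    rw [Set.mem_iInter]
    constructor
    · intro h i
      exact h i i.2
    · intro h i hi
      exact h ⟨i, hi⟩
  rw [this]
  exact isOpen_iInter_of_finite fun i => isOpen_lt continuous_const (hAFB.1 i)

lemma not_cl2 (hAFB : AfbStmt) (y : Fin 8 → E3) (h : F2 0 y < 0) : y ∉ closure X2 := by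
  intro hcl
  have hc : IsClosed {y : Fin 8 → E3 | 0 ≤ F2 0 y} := isClosed_le continuous_const (hAFB.1 0)
  have hs : X2 ⊆ {y : Fin 8 → E3 | 0 ≤ F2 0 y} := by
    intro z hz
    have h1 : 0 < F2 0 z := hz 0 (by norm_num)
    exact h1.le
  have h1 : 0 ≤ F2 0 y := closure_minimal hs hc hcl
  exact absurd h (not_lt.2 h1)

theorem fnb (hAFB : AfbStmt) (hWNB : WnbStmt) (hWLI : WliStmt) (hWLO : WloStmt) (hWLZ : WlzStmt)
    (hOPB : OpbStmt) (hABS : AbsStmt) (hGEB : GebStmt) (hRDX : RdxStmt) (hMCL : MclStmt)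
    (hRC4 : Rc4Stmt) (hSMP : SmpStmt) (hEXB : ExbStmt) (hMIR : MirStmt) : FnbStmt := by
  intro G G' hG hG' hpre
  have hloc := loc2 hAFB hWNB hWLI hWLO hWLZ hOPB hABS hGEB
  have hs5 : 0 ≤ Real.sqrt 5 := Real.sqrt_nonneg 5
  obtain ⟨x, hxX, hx0, h0, h7, m1, m2, m3, m4, m5⟩ := hEXB G G' (by linarith) (by linarith)
  obtain ⟨m, hm⟩ := hMIR
  have hXo : IsOpen X2 := open_X2 hAFB
  have hU : IsOpen (xx ⁻¹' interior (closure X2)) := isOpen_interior.preimage cont_xx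
  have hV : IsOpen (xx ⁻¹' (closure X2)ᶜ) := isClosed_closure.isOpen_compl.preimage cont_xx
  have hcov : Conf (n := 7) ![G, 1, 1, 1, 1, 1, G'] ⊆
      (xx ⁻¹' interior (closure X2)) ∪ (xx ⁻¹' (closure X2)ᶜ) := by
    intro v hv
    by_cases h : xx v ∈ closure X2
    · left
      exact mem_interior_iff_mem_nhds.2
        (hloc _ (conf_Om2 hRDX hMCL hRC4 G G' hG hG' v hv h) h)
    · right
      exact h
  have hpos : ∀ i < 53, F2 i x ≠ 0 := by
    intro i hi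
    have h1 : 0 < F2 i x := hxX i hi
    exact ne_of_gt h1
  have hneU : (Conf (n := 7) ![G, 1, 1, 1, 1, 1, G'] ∩ (xx ⁻¹' interior (closure X2))).Nonempty := by
    refine ⟨vv x, mem_conf2 hSMP G G' x hpos hx0 h0 h7 m1 m2 m3 m4 m5, ?_⟩
    rw [Set.mem_preimage, xx_vv]
    exact interior_mono subset_closure (by rw [hXo.interior_eq]; exact hxX)
  have hneV : (Conf (n := 7) ![G, 1, 1, 1, 1, 1, G'] ∩ (xx ⁻¹' (closure X2)ᶜ)).Nonempty := by
    obtain ⟨y, hy⟩ : ∃ y : Fin 8 → E3, ∀ k, y k = m (x k) := ⟨fun k => m (x k), fun k => rfl⟩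
    have hy' : y = fun k => m (x k) := funext hy
    have hF : ∀ i, F2 i y = - F2 i x := by
      intro i
      rw [hy']
      unfold F2
      rw [hm, mul_neg]
    refine ⟨vv y, mem_conf2 hSMP G G' y ?_ ?_ ?_ ?_ ?_ ?_ ?_ ?_ ?_, ?_⟩
    · intro i hi
      rw [hF]
      exact neg_ne_zero.2 (hpos i hi)
    · rw [hy', hm]
      exact neg_ne_zero.2 hx0
    · rw [hy, m.norm_map]; exact h0
    · rw [hy, m.norm_map]; exact h7
    · rw [hy, hy, ← map_sub, m.norm_map]; exact m1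
    · rw [hy, hy, ← map_sub, m.norm_map]; exact m2
    · rw [hy, hy, ← map_sub, m.norm_map]; exact m3
    · rw [hy, hy, ← map_sub, m.norm_map]; exact m4
    · rw [hy, hy, ← map_sub, m.norm_map]; exact m5
    · rw [Set.mem_preimage, xx_vv]
      refine not_cl2 hAFB y ?_
      have h1 : 0 < F2 0 x := hxX 0 (by norm_num)
      rw [hF]
      exact neg_lt_zero.2 h1
  obtain ⟨v, -, hv1, hv2⟩ := hpre _ _ hU hV hcov hneU hneV
  exact hv2 (interior_subset hv1)

end Pool.Agent.LKU.H79
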