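import Pool.Agent.LKU.Stmts

set_option autoImplicit false

namespace Pool.Agent.LKU.H79

open Pool.Agent.LCK Pool.Agent.LKT Pool.Agent.LKU

/-- MCL: meeting is a closed condition -/
theorem mcl : MclStmt := by
  intro a b c d e
  obtain ⟨K, hK⟩ : ∃ K : Set (ℝ × ℝ × ℝ × ℝ), K = {p | 0 ≤ p.1 ∧ p.1 ≤ 1 ∧ 0 ≤ p.2.1 ∧ 0 ≤ p.2.2.1 ∧
      0 ≤ p.2.2.2 ∧ p.2.1 + p.2.2.1 + p.2.2.2 = 1} := ⟨_, rfl⟩
  have hcl : IsClosed K := by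
    rw [hK]
    have k1 : IsClosed {p : ℝ × ℝ × ℝ × ℝ | 0 ≤ p.1} := isClosed_le continuous_const (by fun_prop)
    have k2 : IsClosed {p : ℝ × ℝ × ℝ × ℝ | p.1 ≤ 1} := isClosed_le (by fun_prop) continuous_const
    have k3 : IsClosed {p : ℝ × ℝ × ℝ × ℝ | 0 ≤ p.2.1} := isClosed_le continuous_const (by fun_prop)
    have k4 : IsClosed {p : ℝ × ℝ × ℝ × ℝ | 0 ≤ p.2.2.1} := isClosed_le continuous_const (by fun_prop)
    have k5 : IsClosed {p : ℝ × ℝ × ℝ × ℝ | 0 ≤ p.2.2.2} := isClosed_le continuous_const (by fun_prop)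
    have k6 : IsClosed {p : ℝ × ℝ × ℝ × ℝ | p.2.1 + p.2.2.1 + p.2.2.2 = 1} :=
      isClosed_eq (by fun_prop) continuous_const
    exact k1.inter (k2.inter (k3.inter (k4.inter (k5.inter k6))))
  have hsub : K ⊆ Set.Icc (0 : ℝ) 1 ×ˢ Set.Icc (0 : ℝ) 1 ×ˢ Set.Icc (0 : ℝ) 1 ×ˢ Set.Icc (0 : ℝ) 1 := by
    rintro ⟨p1, p2, p3, p4⟩ hp
    rw [hK] at hp
    obtain ⟨h1, h2, h3, h4, h5, h6⟩ := hp
    dsimp only at h1 h2 h3 h4 h5 h6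
    refine ⟨⟨h1, h2⟩, ⟨h3, ?_⟩, ⟨h4, ?_⟩, ⟨h5, ?_⟩⟩
    · show p2 ≤ 1
      linarith
    · show p3 ≤ 1
      linarith
    · show p4 ≤ 1
      linarith
  have hcomp : IsCompact K :=
    (isCompact_Icc.prod (isCompact_Icc.prod (isCompact_Icc.prod isCompact_Icc))).of_isClosed_subset
      hcl hsub
  have : CompactSpace K := isCompact_iff_compactSpace.1 hcomp
  have hC : IsClosed {q : (Fin 8 → E3) × K | (1 - q.2.1.1) • q.1 a + q.2.1.1 • q.1 b =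
      q.2.1.2.1 • q.1 c + q.2.1.2.2.1 • q.1 d + q.2.1.2.2.2 • q.1 e} :=
    isClosed_eq (by fun_prop) (by fun_prop)
  have hI := isClosedMap_fst_of_compactSpace (X := Fin 8 → E3) (Y := K) _ hC
  have he : {x : Fin 8 → E3 | Meet (x a) (x b) (x c) (x d) (x e)} = Prod.fst ''
      {q : (Fin 8 → E3) × K | (1 - q.2.1.1) • q.1 a + q.2.1.1 • q.1 b =
      q.2.1.2.1 • q.1 c + q.2.1.2.2.1 • q.1 d + q.2.1.2.2.2 • q.1 e} := by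
    ext x
    constructor
    · rintro ⟨s, t1, t2, t3, h1, h2, h3, h4, h5, h6, h7⟩
      have hm : ((s, t1, t2, t3) : ℝ × ℝ × ℝ × ℝ) ∈ K := by
        rw [hK]
        exact ⟨h1, h2, h3, h4, h5, h6⟩
      exact ⟨(x, ⟨(s, t1, t2, t3), hm⟩), h7, rfl⟩
    · rintro ⟨⟨y, ⟨⟨s, t1, t2, t3⟩, hm⟩⟩, h7, rfl⟩
      rw [hK] at hm
      obtain ⟨h1, h2, h3, h4, h5, h6⟩ := hm
      exact ⟨s, t1, t2, t3, h1, h2, h3, h4, h5, h6, h7⟩
  rw [he]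
  exact hI

end Pool.Agent.LKU.H79
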