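import Pool.Agent.Helper79_LKT.ALL
import Pool.Agent.Helper77_LKU.AFB
import Pool.Agent.Helper68_LKU.WNB
import Pool.Agent.Helper63_LKU.WLI
import Pool.Agent.Helper66_LKU.WLO
import Pool.Agent.Helper32_LKU.WLZ
import Pool.Agent.Helper6_LKU.OPB
import Pool.Agent.Helper44_LKU.GNB
import Pool.Agent.Helper45_LKU.GEB
import Pool.Agent.Helper11_LKU.RDX
import Pool.Agent.Helper79_LKU.MCL
import Pool.Agent.Helper72_LKU.RC4
import Pool.Agent.Helper59_LKU.EXB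
import Pool.Agent.Helper51_LKU.REV
import Pool.Agent.Helper52_LKU.EXC
import Pool.Agent.Helper79_LKU.FNB

/-!
# Squad LKU: assembly
-/

set_option autoImplicit false

namespace Pool.Agent.LKU.H79

open Pool.Agent.LCK Pool.Agent.LKT Pool.Agent.LKU

theorem fnb_all : FnbStmt :=
  fnb H77.afb H68.wnb (H63.wli Pool.Agent.LKT.H27.crm) (H66.wlo Pool.Agent.LKT.H27.crm)
    (H32.wlz Pool.Agent.LKT.H27.crm) H6.opb (Pool.Agent.LKT.H36.abs Pool.Agent.LKT.H75.one)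
    (H45.geb Pool.Agent.LKT.H35.nvd (H44.gnb Pool.Agent.LKT.H27.crm) Pool.Agent.LKT.H16.gex)
    (H11.rdx Pool.Agent.LKT.H27.crm) mcl H72.rc4 (Pool.Agent.LKT.H88.smp Pool.Agent.LKT.H27.crm)
    H59.exb Pool.Agent.LKT.H70.mir

theorem exc_all : ExcStmt := H52.exc fnb_all H51.rev

/-- the theorem for links of length `u` -/
theorem main (n : ℕ) (l : Fin n → ℝ) (hl : ∀ k, 0 < l k) (s : ℕ) (hs : s + 7 ≤ n) (u : ℝ)
    (h1 : l ⟨s + 1, by omega⟩ = u) (h2 : l ⟨s + 2, by omega⟩ = u) (h3 : l ⟨s + 3, by omega⟩ = u)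
    (h4 : l ⟨s + 4, by omega⟩ = u) (h5 : l ⟨s + 5, by omega⟩ = u)
    (h : (2 * u < l ⟨s, by omega⟩ ∧ Real.sqrt 5 * u < l ⟨s + 6, by omega⟩) ∨
      (Real.sqrt 5 * u < l ⟨s, by omega⟩ ∧ 2 * u < l ⟨s + 6, by omega⟩)) : Locked l := by
  have hu : 0 < u := by rw [← h1]; exact hl _
  have hu' : 0 < u⁻¹ := inv_pos.2 hu
  have key : ∀ (c : ℝ) (k : Fin n), c * u < l k → c < u⁻¹ * l k := by
    intro c k hk
    rw [inv_mul_eq_div, lt_div_iff₀ hu]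
    exact hk
  refine Pool.Agent.LKT.H79.locked_of_scaled l u⁻¹ hu' ?_
  refine exc_all n (fun k => u⁻¹ * l k) s hs (fun k => mul_pos hu' (hl k)) ?_ ?_ ?_ ?_ ?_ ?_
  · rcases h with ⟨ha, hb⟩ | ⟨ha, hb⟩
    · exact Or.inl ⟨key 2 _ ha, key _ _ hb⟩
    · exact Or.inr ⟨key _ _ ha, key 2 _ hb⟩
  · show u⁻¹ * l ⟨s + 1, by omega⟩ = 1
    rw [h1, inv_mul_cancel₀ hu.ne']
  · show u⁻¹ * l ⟨s + 2, by omega⟩ = 1
    rw [h2, inv_mul_cancel₀ hu.ne']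
  · show u⁻¹ * l ⟨s + 3, by omega⟩ = 1
    rw [h3, inv_mul_cancel₀ hu.ne']
  · show u⁻¹ * l ⟨s + 4, by omega⟩ = 1
    rw [h4, inv_mul_cancel₀ hu.ne']
  · show u⁻¹ * l ⟨s + 5, by omega⟩ = 1
    rw [h5, inv_mul_cancel₀ hu.ne']

end Pool.Agent.LKU.H79
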